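import Mathlib
import Pool.Agent.W612.WSL.Defs
import Pool.Agent.W612.WSL.Monoid
import Pool.Agent.W612.WSL.Unit

/-!
# Units of the monoid of welded string links up to self-crossing changes

For every `n ≥ 2` the monoid `wSL_n^sc` of welded string links up to self-crossing changes has an
invertible element which is not the class of a welded pure braid.

The element: the strand `i` has a self-crossing; between its two passages the strand `i` passes
under the strand `j`, and once more, with the opposite sign, after the self-crossing.

It is invertible: up to self-crossing changes the two ends of a self-arrow commute with all tails
and with the ends of all self-arrows, and a self-arrow can be moved over two heads of arrows from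
the strand `j` at once; so the self-arrows of the diagram and of the diagram with the other sign of
the self-crossing can be made parallel, and cancel.

It is not a braid: the sum, over the self-arrows of the strands `i` and `j`, of the sign times the
number of heads (counted with signs) of arrows coming from the other one of the two strands between
the tail and the head, plus a sum over the pairs of an arrow from `i` to `j` and an arrow from `j`
to `i`, is invariant under all moves. It is `0` for monotone diagrams and `1` for the diagram above.
-/

set_option autoImplicit false

namespace Pool.Agent.Results.MP_7df7b8_gt.UnitNotBraid

open Pool.Agent.W612.WSL

/-- For every `n ≥ 2` there is an invertible element of `wSL_n^sc` which is not the class of a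
monotone diagram, that is, not in the image of the welded pure braid group `wP_n`. -/
theorem result (n : ℕ) (hn : 2 ≤ n) :
    ∃ u : (WSLsc n)ˣ, ∀ D : Diagram n, IsMonotone D.1 → (u : WSLsc n) ≠ cls D :=
  exists_unit hn

end Pool.Agent.Results.MP_7df7b8_gt.UnitNotBraid
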